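import Mathlib
import Pool.Agent.Lib.helper23.BrA

namespace Pool.Agent.Results.MP_060e4f_an.Counter

open Filter Topology Complex MeasureTheory

/-- `f` is holomorphic, of bounded type and of nonpositive mean type in the upper half-plane. -/
def Adm (f : ℂ → ℂ) : Prop :=
  DifferentiableOn ℂ f {z | 0 < z.im} ∧
    (∃ g h : ℂ → ℂ, DifferentiableOn ℂ g {z | 0 < z.im} ∧ DifferentiableOn ℂ h {z | 0 < z.im} ∧
      (∃ M : ℝ, ∀ z : ℂ, 0 < z.im → ‖g z‖ ≤ M ∧ ‖h z‖ ≤ M) ∧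
      ∀ z : ℂ, 0 < z.im → h z ≠ 0 ∧ f z = g z / h z) ∧
    ∀ ε : ℝ, 0 < ε → ∀ᶠ y : ℝ in atTop, ‖f (y * I)‖ ≤ Real.exp (ε * y)

/-- Membership in the de Branges space `H(E)`. -/
def InH (E F : ℂ → ℂ) : Prop :=
  Differentiable ℂ F ∧ ∫⁻ t : ℝ, ‖F t / E t‖ₑ ^ 2 < ⊤ ∧ Adm (fun z => F z / E z) ∧
    Adm fun z => starRingEnd ℂ (F (starRingEnd ℂ z)) / E z

theorem adm_of (f : ℂ → ℂ) (hf : DifferentiableOn ℂ f {z | 0 < z.im})
    (h : ∀ z : ℂ, 0 < z.im → ‖f z‖ ≤ 1) : Adm f :=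
  ⟨hf, ⟨f, fun _ => 1, hf, differentiableOn_const _, ⟨1, fun z hz => ⟨h z hz, by simp⟩⟩,
    by simp⟩, fun ε hε => (eventually_gt_atTop 0).mono fun y hy =>
      (h _ (by simpa using hy)).trans (Real.one_le_exp (by positivity))⟩

open Pool.Agent.Lib.helper23.BrA in
theorem result : ∃ E : ℂ → ℂ, Differentiable ℂ E ∧
    (∀ z : ℂ, 0 < z.im → ‖E (starRingEnd ℂ z)‖ < ‖E z‖) ∧
    (∃ A B : ℝ, ∀ z, ‖E z‖ ≤ A * Real.exp (B * ‖z‖)) ∧ (∀ t : ℝ, E t ≠ 0) ∧
    (∀ x : ℝ, ∃ C : ℝ, ∀ t : ℝ, ‖E (t + x) / E t‖ ≤ C) ∧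
    ∃ F : ℂ → ℂ, InH E F ∧ ¬ InH E fun ζ => F (ζ + 2 * I) := by
  have sq : ∀ z : ℂ, ‖z + I‖ ^ 2 = z.re ^ 2 + (z.im + 1) ^ 2 := fun z => by
    rw [Complex.sq_norm, normSq_apply]; simp; ring
  have h1 : ∀ z : ℂ, 0 ≤ z.im → 1 ≤ ‖z + I‖ := fun z hz =>
    (sq_le_sq₀ zero_le_one (norm_nonneg _)).1 (by rw [sq]; nlinarith [sq_nonneg z.re])
  have h0 : ∀ z : ℂ, 0 ≤ z.im → (z + I) * G z ≠ 0 := fun z hz =>
    mul_ne_zero (norm_pos_iff.1 (one_pos.trans_le (h1 z hz))) (G_ne z hz)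
  have hG : ∀ z : ℂ, 0 ≤ z.im → 0 < ‖G z‖ := fun z hz => norm_pos_iff.2 (G_ne z hz)
  have hE : Differentiable ℂ fun z => (z + I) * G z := by have := diff_G; fun_prop
  have h2 : ∀ z w : ℂ, 0 < z.im → ‖w‖ ≤ ‖G z‖ → ‖w / ((z + I) * G z)‖ ≤ 1 := fun z w hz hw => by
    rw [norm_div, div_le_one (norm_pos_iff.2 (h0 z hz.le)), norm_mul]
    exact hw.trans (le_mul_of_one_le_left (norm_nonneg _) (h1 z hz.le))
  refine ⟨fun z => (z + I) * G z, hE, fun z hz => ?_, ⟨‖G 0‖, 3, fun z => ?_⟩,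
    fun t => h0 t (by simp),
    fun x => ⟨(1 + |x|) * Real.exp (10 * (2 * |x| + x ^ 2)), fun t => ?_⟩, G,
    ⟨diff_G, ?_, adm_of _ (diff_G.differentiableOn.div hE.differentiableOn fun z hz => h0 z hz.le)
      fun z hz => h2 z _ hz le_rfl, adm_of _ (DifferentiableOn.div ?_ hE.differentiableOn
      fun z hz => h0 z hz.le) fun z hz => h2 z _ hz ?_⟩, fun H => ?_⟩
  · rw [norm_mul, norm_mul]
    refine mul_lt_mul' (G_conj z hz.le) ?_ (norm_nonneg _) (hG z hz.le) |> fun h => by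
      simpa only [mul_comm] using h
    refine (sq_lt_sq₀ (norm_nonneg _) (norm_nonneg _)).1 ?_
    rw [sq, sq, conj_re, conj_im]; nlinarith
  · have h3 := norm_add_le z I
    rw [norm_I] at h3
    rw [norm_mul, show 3 * ‖z‖ = ‖z‖ + 2 * ‖z‖ by ring, Real.exp_add, mul_left_comm]
    exact mul_le_mul (h3.trans (Real.add_one_le_exp _)) (G_exp z) (norm_nonneg _) (by positivity)
  · rw [norm_div, div_le_iff₀ (norm_pos_iff.2 (h0 t (by simp))), norm_mul, norm_mul,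
      mul_mul_mul_comm]
    refine mul_le_mul ?_ (G_real t x) (norm_nonneg _) (by positivity)
    have h3 := norm_add_le ((t : ℂ) + I) x
    rw [norm_real, Real.norm_eq_abs, add_right_comm] at h3
    nlinarith [h1 t (by simp), abs_nonneg x]
  · refine lt_of_le_of_lt (lintegral_mono fun t => le_of_eq ?_) integrable_inv_one_add_sq.2
    rw [← ofReal_norm, ← ofReal_norm, ← ENNReal.ofReal_pow (norm_nonneg _),
      norm_div, norm_mul, mul_comm, div_mul_cancel_left₀ (hG t (by simp)).ne', inv_pow, sq,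
      Real.norm_of_nonneg (by positivity)]
    simp [add_comm]
  · exact fun z _ => (differentiableAt_conj_conj_iff.2 (diff_G _)).differentiableWithinAt
  · rw [RCLike.norm_conj]; exact G_conj z hz.le
  · refine absurd H.2.1 (not_lt.2 ?_)
    have hd : Pairwise (Function.onFun Disjoint fun n : ℕ => Set.Ico ((4 : ℝ) ^ n) (4 ^ n + 1)) := by
      refine (pairwise_disjoint_on _).2 fun m n hmn => Set.disjoint_left.2 fun t h3 h4 => ?_
      have : (4 : ℝ) ^ (m + 1) ≤ 4 ^ n := pow_le_pow_right₀ (by norm_num) hmn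
      have : (1 : ℝ) ≤ 4 ^ m := one_le_pow₀ (by norm_num)
      rw [pow_succ] at *
      linarith [h3.2, h4.1]
    refine le_trans (le_of_eq ?_) ((setLIntegral_mono' (f := fun _ => ENNReal.ofReal (1 / 50))
      (s := ⋃ n : ℕ, Set.Ico ((4 : ℝ) ^ n) (4 ^ n + 1))
      (.iUnion fun _ => measurableSet_Ico) fun t ht => ?_).trans (setLIntegral_le_lintegral _ _))
    · rw [setLIntegral_const, measure_iUnion hd fun _ => measurableSet_Ico]
      simp [ENNReal.mul_top]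
    · obtain ⟨n, h3, h4⟩ := Set.mem_iUnion.1 ht
      rw [← ofReal_norm, ← ENNReal.ofReal_pow (norm_nonneg _)]
      refine ENNReal.ofReal_le_ofReal ?_
      have h5 := G_imag n t (abs_le.2 ⟨by linarith, by linarith⟩)
      have h6 : (1 : ℝ) ≤ 4 ^ n := one_le_pow₀ (by norm_num)
      have h7 : (16 : ℝ) ^ n = 4 ^ n * 4 ^ n := by rw [← mul_pow]; norm_num
      have h8 := hG t (by simp)
      have h9 := h1 t (by simp)
      rw [div_mul_eq_mul_div, le_div_iff₀ (by positivity)] at h5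
      rw [norm_div, norm_mul, div_pow, le_div_iff₀ (by positivity), mul_pow, sq]
      have h10 : t ^ 2 + 1 ≤ 5 * 16 ^ n := by nlinarith
      simp only [ofReal_re, ofReal_im, zero_add, one_pow]
      nlinarith [mul_le_mul_of_nonneg_right h10 (sq_nonneg ‖G t‖)]

end Pool.Agent.Results.MP_060e4f_an.Counter
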